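import Mathlib
import Pool.Agent.LibFS95.Par

/-!
Systems of conditions `x_i + 1 = x_k`, `x_i ! = x_k`, `x_i ∤ x_k` in `n` positive integers: the
bound of the statement `Φ_n` for three kinds of systems, for every `n`.
-/

namespace Pool.Agent.Results.MP_38ee21_nt.Components

open Pool.Agent.LibFSN Pool.Agent.LibFS95

/-- For every `n ≥ 1`: let a system of conditions `x_i + 1 = x_k` (`(i, k) ∈ A`), `x_i ! = x_k`
(`(i, k) ∈ B`) and `x_i ∤ x_k` (`(i, k) ∈ C`) in `n` unknowns have finitely many solutions in
positive integers. Two unknowns are joined if they are linked by a chain of successor and factorial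
conditions. If some unknown is joined to no unknown of a factorial condition, or if the left side
`x_i` of no non-divisibility condition is joined to an unknown of a successor condition, or if the
right side `x_k` of no non-divisibility condition is, then all solutions are bounded by `f n`. -/
theorem result (n : ℕ) (_hn : 1 ≤ n) (A B C : Set (Fin n × Fin n))
    (h : (∃ i, ∀ p ∈ B, ¬ Joined A B i p.1) ∨
      (∀ p ∈ C, ∀ q ∈ A, ¬ Joined A B p.1 q.1) ∨
      (∀ p ∈ C, ∀ q ∈ A, ¬ Joined A B p.2 q.1))
    (hfin : (Sols A B C).Finite) : ∀ x ∈ Sols A B C, ∀ i, x i ≤ bnd n :=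
  fun x hx i => main3 A B C h hfin x hx i

end Pool.Agent.Results.MP_38ee21_nt.Components
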