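import Mathlib
import Pool.Agent.LibFS32.Final

/-!
Systems of conditions `x_i + 1 = x_k`, `x_i ! = x_k`, `x_i ∤ x_k` in `n` positive integers: the
statement `Φ_n` of the problem for `n ≤ 5`.
-/

namespace Pool.Agent.Results.MP_38ee21_nt.UpToFive

open Pool.Agent.LibFSN

/-- The statement `Φ_n`: if a system in `n` unknowns has only finitely many solutions in positive
integers, then all its solutions are bounded by `f n`. -/
def Phi (n : ℕ) : Prop :=
  ∀ A B C : Set (Fin n × Fin n), (Sols A B C).Finite → ∀ x ∈ Sols A B C, ∀ i, x i ≤ bnd n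

/-- `Φ_1`, `Φ_2`, `Φ_3` are true, `Φ_4` is equivalent to the infinitude of the primes of the
form `m ! + 1`, and `Φ_5` is equivalent to the conjunction of: there are infinitely many twin
primes; there are infinitely many `m` with `m ! - 1` prime; there are infinitely many odd `m` with
`m ! + 1` prime; the set of the `m ≥ 4` with `(m !)! + 1` prime is empty or infinite. -/
theorem result :
    Phi 1 ∧ Phi 2 ∧ Phi 3 ∧ (Phi 4 ↔ {m : ℕ | (Nat.factorial m + 1).Prime}.Infinite) ∧
      (Phi 5 ↔
        {p : ℕ | p.Prime ∧ (p + 2).Prime}.Infinite ∧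
        {m : ℕ | (Nat.factorial m - 1).Prime}.Infinite ∧
        {m : ℕ | m % 2 = 1 ∧ (Nat.factorial m + 1).Prime}.Infinite ∧
        ({m : ℕ | 4 ≤ m ∧ (Nat.factorial (Nat.factorial m) + 1).Prime} = ∅ ∨
          {m : ℕ | 4 ≤ m ∧ (Nat.factorial (Nat.factorial m) + 1).Prime}.Infinite)) :=
  ⟨phi_small.1, phi_small.2.1, phi_small.2.2.1, phi_small.2.2.2, phi_five⟩

end Pool.Agent.Results.MP_38ee21_nt.UpToFive
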